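import Pool.Agent.Q6.TY.All3

/-!
# MP_4c3a42_al, Q1 : bounded solutions of addition-multiplication systems over the complex numbers

Every complex tuple has a bounded image: every system of equations `x i = 1`, `x i + x j = x k`,
`x i * x j = x k` in `n` unknowns which has a complex solution has one in the polydisc of radius
`2 ^ (2 ^ (n - 2))`.
-/

namespace Pool.Agent.Results.MP_4c3a42_al.BoundedImageComplex

/-- Every `x ∈ ℂ^n` has a bounded image `y ∈ ℂ^n` (the exponents are real). -/
theorem result : ∀ n : ℕ, 1 ≤ n → ∀ x : Fin n → ℂ, ∃ y : Fin n → ℂ,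
    (∀ i, ‖y i‖ ≤ (2 : ℝ) ^ ((2 : ℝ) ^ ((n : ℝ) - 2))) ∧
    (∀ i, x i = 1 → y i = 1) ∧
    (∀ i j k, x i + x j = x k → y i + y j = y k) ∧
    (∀ i j k, x i * x j = x k → y i * y j = y k) :=
  fun n _ x => Pool.Agent.Q6.TY.bounded_image' n x

end Pool.Agent.Results.MP_4c3a42_al.BoundedImageComplex
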